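import Pool.Agent.Work.MP_817c3f_lc.Gadget
import Pool.Agent.Work.MP_817c3f_lc.Code
import Pool.Agent.Work.MP_817c3f_lc.DfgWF
import Pool.Agent.Work.MP_817c3f_lc.Chain
import Pool.Agent.Work.MP_817c3f_lc.DfgPtf
import Pool.Agent.Work.MP_817c3f_lc.Circ
import Pool.Agent.Work.MP_817c3f_lc.Check
import Pool.Agent.Work.MP_817c3f_lc.ExpProg
import Pool.Agent.Work.MP_817c3f_lc.Bin
import Pool.Agent.Work.MP_817c3f_lc.Local
import Pool.Agent.Work.MP_817c3f_lc.Dialogue
import Pool.Agent.Work.MP_817c3f_lc.Encode
import Pool.Agent.Work.MP_817c3f_lc.AlgPtf
import Pool.Agent.Work.MP_817c3f_lc.AlgOK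
import Pool.Agent.Work.MP_817c3f_lc.Member
import Pool.Agent.Work.MP_817c3f_lc.Final

/-!
# Edge Blocking on general directed graphs is EXPTIME-complete

Positions, the winning relation, the three outcomes, the encoding of positions by bit strings and
the class EXPTIME (Mathlib's multi-stack Turing machines, time `2 ^ p(n)`) are defined in
`Pool.Agent.Work.MP_817c3f_lc.Defs`.
-/

set_option autoImplicit false

namespace Pool.Agent.Results.MP_817c3f_lc.ExptimeComplete

open Pool.Agent.Work.MP_817c3f_lc

/-- It cannot happen that both players can force a win from the same position. -/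
theorem not_both (B : Board) (b : Bool) (occ : Fin B.n → Bool) (h : B.Wins b occ) :
    ¬ ∀ u v, B.Legal b occ u v → B.Wins (!b) (moveTok occ u v) := by
  induction h with
  | intro occ u v hl hw ih =>
    intro hall
    cases hall u v hl with
    | intro _ u' v' hl' hw' =>
      refine ih u' v' hl' (fun u'' v'' hl'' => ?_)
      exact hw' u'' v'' (by rw [Bool.not_not]; exact hl'')

/-- **Edge Blocking is EXPTIME-complete.**
1. The outcome (mover wins / other player wins / draw) is computed in time `2 ^ p(n)`.
2. Whether the player to move wins is an EXPTIME-complete problem.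
3. Every language `L` in EXPTIME reduces in polynomial time to the outcome problem, by a reduction
   all of whose positions are positions with Left to move in which the mover wins if `x ∈ L` and
   which are draws if `x ∉ L`. -/
theorem result :
    ExpTimeFun outcomeFun ∧ ExpTimeComplete MoverWinsLang ∧
    ∀ L ∈ EXPTIME, ∃ f : List Bool → List Bool, PolyTimeFun f ∧ ∀ x, ∃ P : Position,
      f x = P.encode ∧ P.left = true ∧
      (x ∈ L → P.outcome = .mover) ∧ (x ∉ L → P.outcome = .draw) := by
  have hM : Membership := membership claimAlgPtf (claimAlg claimEncode) claimEncode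
  have hH : Hardness := hardness claimGadget claimCode claimWF claimChain claimDfgPtf
    (claimCheck claimCirc) claimExp (claimDialogue claimBin claimLocal)
  exact ⟨hM.1, complete hH hM claimEncode, hH⟩

end Pool.Agent.Results.MP_817c3f_lc.ExptimeComplete
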